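import Pool.Agent.R479.DB.Lim
import Mathlib.Analysis.SpecialFunctions.Pow.Real

/-!
# Borel-Cantelli for the points of a metric space near the elements of sparse sets
-/

set_option autoImplicit false

namespace Pool.Agent.K1H84.CA

open Filter Topology MeasureTheory
open scoped ENNReal NNReal

theorem null {Q M : Type} [MetricSpace M] [MeasurableSpace M] [BorelSpace M] (φ : Q → M)
    (V : ℕ → Set Q) {a C : ℝ} (ha : 0 ≤ a)
    (hV : ∀ k, (V k).Finite ∧ ((V k).ncard : ℝ) ≤ C * Real.exp (a * k)) {s τ : ℝ} (hs : 0 < s)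
    (hτ : a < s * τ) (A : ℝ) :
    μH[s] {ξ : M | {i : Σ k : ℕ, V k |
      dist ξ (φ i.2.1) ≤ A * Real.exp (-(τ * i.1))}.Infinite} = 0 := by
  have hτ0 : 0 < τ := by
    by_contra h
    push Not at h
    have := mul_nonpos_of_nonneg_of_nonpos hs.le h
    linarith
  set p : ℝ := (a + s * τ) / 2 with hp
  have hpa : a < p := by rw [hp]; linarith
  have hp0 : 0 < p := by linarith
  have hps : p < s * τ := by rw [hp]; linarith
  set r : ℝ := p / τ with hr
  have hr0 : 0 < r := by positivity
  have hrs : r < s := by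
    rw [hr, div_lt_iff₀ hτ0]
    exact hps
  have hτr : τ * r = p := by
    rw [hr]
    field_simp
  haveI : ∀ k, Countable (V k) := fun k => (hV k).1.countable
  set L : ℝ := |A| + 1 with hL
  have hL0 : 0 < L := by positivity
  set U : (Σ k : ℕ, V k) → Set M := fun i =>
    Metric.closedBall (φ i.2.1) (L * Real.exp (-(τ * i.1))) with hU
  have hsum : Summable fun i : (Σ k : ℕ, V k) => Real.exp (-(p * i.1)) := by
    rw [summable_sigma_of_nonneg (fun i => (Real.exp_pos _).le)]
    haveI : ∀ k, Finite (V k) := fun k => (hV k).1.to_subtype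
    refine ⟨fun k => Summable.of_finite, ?_⟩
    have h1 : ∀ k : ℕ, ∑' _ : V k, Real.exp (-(p * k)) = ((V k).ncard : ℝ) * Real.exp (-(p * k)) := by
      intro k
      rw [tsum_const, nsmul_eq_mul, Nat.card_coe_set_eq]
    refine Summable.of_nonneg_of_le (fun k => tsum_nonneg fun _ => (Real.exp_pos _).le) (fun k => ?_)
      ((summable_geometric_of_lt_one (Real.exp_pos (-(p - a))).le
        (by rw [Real.exp_lt_one_iff]; linarith)).mul_left C)
    show ∑' _ : V k, Real.exp (-(p * k)) ≤ C * Real.exp (-(p - a)) ^ k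
    rw [h1 k, ← Real.exp_nat_mul]
    calc ((V k).ncard : ℝ) * Real.exp (-(p * k)) ≤ C * Real.exp (a * k) * Real.exp (-(p * k)) :=
          mul_le_mul_of_nonneg_right (hV k).2 (Real.exp_pos _).le
      _ = C * Real.exp (k * -(p - a)) := by
          rw [mul_assoc, ← Real.exp_add]
          congr 2
          ring
  have h2 := Pool.Agent.R479.DB.dimH_limsup U (fun i => 2 * L * Real.exp (-(τ * i.1)))
    (fun i => by positivity) (fun i => by
        rw [hU]
        simp only
        refine Metric.ediam_le_of_forall_dist_le fun x hx y hy => ?_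
        rw [Metric.mem_closedBall] at hx hy
        have := dist_triangle_right x y (φ i.2.1)
        linarith) hr0 (by
      refine (hsum.mul_left ((2 * L) ^ r)).congr fun i => ?_
      rw [Real.mul_rpow (by positivity) (Real.exp_pos _).le, ← Real.exp_mul]
      congr 2
      rw [← hτr]
      ring)
  have h3 : ((Real.toNNReal s : NNReal) : ℝ) = s := Real.coe_toNNReal s hs.le
  have h4 : μH[s] {ξ : M | {i | ξ ∈ U i}.Infinite} = 0 := by
    rw [← h3]
    apply hausdorffMeasure_of_dimH_lt
    refine h2.trans_lt ?_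
    have h5 : ((Real.toNNReal s : NNReal) : ℝ≥0∞) = ENNReal.ofReal s := rfl
    rw [h5]
    exact (ENNReal.ofReal_lt_ofReal_iff hs).2 hrs
  refine measure_mono_null ?_ h4
  intro ξ hξ
  refine Set.Infinite.mono ?_ hξ
  intro i hi
  show ξ ∈ Metric.closedBall (φ i.2.1) (L * Real.exp (-(τ * i.1)))
  rw [Metric.mem_closedBall]
  have h0 : (0 : ℝ) ≤ Real.exp (-(τ * i.1)) := (Real.exp_pos _).le
  exact hi.trans (mul_le_mul_of_nonneg_right (by rw [hL]; linarith [le_abs_self A]) h0)

end Pool.Agent.K1H84.CA
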